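import Pool.Agent.helper68.GB.Spec
import Pool.Agent.helper59.FI.Base

set_option autoImplicit false

namespace Pool.Agent.GB

open Pool.Agent.helper58.DC Pool.Agent.DI Pool.Agent.GR Pool.Agent.OB Pool.Agent.DR Pool.Agent.FI Pool.Agent.FI3 Pool.Agent.FI4 Pool.Agent.LE Pool.Agent.BR

section

variable {G : Type} [Group G]

theorem DIC_sub (M : Ideal (integralClosure ℤ ℂ)) (K : Subgroup G) (η : G → ℂ) :
    Bl M K η ⊆ IrrOn K := fun _ h => h.1

/-- the central characters at a block idempotent -/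
theorem DIC_cc (hIDM : IDM_stmt) (hREP : REP_stmt) [Finite G] {p : ℕ}
    {M : Ideal (integralClosure ℤ ℂ)} (hS : Setup p M) (K : Subgroup G) {e : G → ℂ}
    (he : e ∈ BB M K) {η : G → ℂ} (hη : η ∈ IrrOn K) :
    (SB M K η (rep M K e) → cc η e = 1) ∧ (¬ SB M K η (rep M K e) → cc η e = 0) := by
  classical
  obtain ⟨_, h2, _⟩ := hREP p M hS G K
  obtain ⟨_, hee⟩ := h2 e he
  have h := (hIDM G K (Bl M K (rep M K e)) (DIC_sub M K _)).2.1 η hη
  rw [hee] at h
  constructor
  · intro hs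
    rw [h, if_pos (show η ∈ Bl M K (rep M K e) from ⟨hη, hs⟩)]
  · intro hs
    rw [h, if_neg (show η ∉ Bl M K (rep M K e) from fun h' => hs h'.2)]

theorem DIC_eq (hREP : REP_stmt) [Finite G] {p : ℕ}
    {M : Ideal (integralClosure ℤ ℂ)} (hS : Setup p M) (K : Subgroup G) {e e' : G → ℂ}
    (he : e ∈ BB M K) (he' : e' ∈ BB M K) :
    SB M K (rep M K e) (rep M K e') ↔ e = e' := by
  obtain ⟨_, h2, h3, _⟩ := hREP p M hS G K
  obtain ⟨hr, hee⟩ := h2 e he
  obtain ⟨hr', hee'⟩ := h2 e' he'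
  rw [← h3 _ hr _ hr', hee, hee']

theorem DIC_one (hNIL : GR.NIL_stmt) (hCVF : CVF_stmt) (hCCI : CCI_stmt) (hIDM : IDM_stmt)
    (hREP : REP_stmt) [Finite G] {p : ℕ}
    {M : Ideal (integralClosure ℤ ℂ)} (hS : Setup p M) (K : Subgroup G) {e : G → ℂ}
    (he : e ∈ BB M K) {z : G → ℂ} (hz : CF K z) (hi : ∀ x, IntAt M (z x))
    (hzz : ∀ x, InM M (cv z z x - z x)) (hc : InM M (cc (rep M K e) z)) :
    ∀ x, InM M (cv z e x) := by
  obtain ⟨_, h2, _, h4, _⟩ := hREP p M hS G K
  obtain ⟨hr, _⟩ := h2 e he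
  obtain ⟨hCFe, _, hie, hee⟩ := h4 e he
  obtain ⟨c1, c2, _, _, _, _, c7, c8, _, _, c11, c12⟩ := hCVF G
  have hCFε : CF K (cv z e) := (c8 K z e hz hCFe).1
  have hiε : ∀ x, IntAt M (cv z e x) := c11 p M hS z e hi hie
  -- `cv ε ε ≡ ε`
  have hcomm : cv e z = cv z e := (c7 K e z hCFe hz.2)
  have hεε : cv (cv z e) (cv z e) = cv (cv z z) e := by
    rw [c1 z e (cv z e), ← c1 e z e, hcomm, c1 z e e, hee, ← c1 z z e]
  have hd : ∀ x, InM M (cv (cv z e) (cv z e) x - cv z e x) := by
    intro x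
    have e1 : cv (cv z e) (cv z e) x - cv z e x = cv (cv z z - z) e x := by
      rw [hεε, (c2 (cv z z) z e).2.2.1]
      rfl
    have hCFd : CF K (cv z z - z) := (c8 K (cv z z) z (c8 K z z hz hz).1 hz).2.2
    have e2 : cv (cv z z - z) e = cv e (cv z z - z) := c7 K _ e hCFd hCFe.2
    rw [e1, e2]
    exact c12 p M hS e (cv z z - z) hie (fun y => hzz y) x
  refine hNIL p M hS G K (cv z e) hCFε hiε ?_ ?_
  · intro θ hθ
    obtain ⟨_, m2, _⟩ := hCCI G K θ hθ
    rw [m2 z e hz hCFe]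
    by_cases hs : SB M K θ (rep M K e)
    · rw [(DIC_cc hIDM hREP hS K he hθ).1 hs, mul_one]
      have := SBIb hS hs hz hi
      have h' := this.add hS hc
      rwa [sub_add_cancel] at h'
    · rw [(DIC_cc hIDM hREP hS K he hθ).2 hs, mul_zero]
      exact InM.zero hS
  · intro x
    have e1 : cv (cv (cv z e) (cv z e)) (cv z e) x - cv z e x =
        cv (cv (cv z e) (cv z e) - cv z e) (cv z e) x + (cv (cv z e) (cv z e) x - cv z e x) := by
      rw [(c2 (cv (cv z e) (cv z e)) (cv z e) (cv z e)).2.2.1]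
      simp only [Pi.sub_apply]
      ring
    have hCFd : CF K (cv (cv z e) (cv z e) - cv z e) :=
      (c8 K _ _ (c8 K _ _ hCFε hCFε).1 hCFε).2.2
    have e2 : cv (cv (cv z e) (cv z e) - cv z e) (cv z e) =
        cv (cv z e) (cv (cv z e) (cv z e) - cv z e) := c7 K _ _ hCFd hCFε.2
    rw [e1, e2]
    exact (c12 p M hS (cv z e) _ hiε (fun y => hd y) x).add hS (hd x)

end

theorem DIC (hIDM : IDM_stmt) (hEIN : EIN_stmt) (hNIL : GR.NIL_stmt) (hCVF : CVF_stmt)
    (hCCI : CCI_stmt) (hEXP : EXP_stmt) (hREP : REP_stmt) : DIC_stmt := by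
  classical
  intro p M hS G _ _ K
  obtain ⟨h1, h2, h3, h4, _⟩ := hREP p M hS G K
  obtain ⟨c1, c2, _, c4, _, _, c7, c8, _, c10, c11, c12⟩ := hCVF G
  have hA : ∀ e ∈ BB M K, ∀ e' ∈ BB M K,
      (e = e' → cc (rep M K e) e' = 1) ∧ (e ≠ e' → cc (rep M K e) e' = 0) := by
    intro e he e' he'
    obtain ⟨hr, _⟩ := h2 e he
    have h := DIC_cc hIDM hREP hS K he' hr
    rw [DIC_eq hREP hS K he he'] at h
    exact h
  refine ⟨hA, ?_, ?_, ?_, ?_⟩
  · intro e he hall
    obtain ⟨hr, _⟩ := h2 e he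
    have h := ((hCCI G K _ hr).2.2 p M hS e (h4 e he).1.1).2 hall
    rw [(hA e he e he).1 rfl] at h
    exact InM.not_one hS h
  · intro e he e' he' hne
    have hCF : CF K (cv e e') := (c8 K e e' (h4 e he).1 (h4 e' he').1).1
    refine hEXP G K (cv e e') hCF fun η hη => ?_
    rw [(hCCI G K η hη).2.1 e e' (h4 e he).1 (h4 e' he').1]
    by_cases hs : SB M K η (rep M K e)
    · by_cases hs' : SB M K η (rep M K e')
      · exact absurd ((DIC_eq hREP hS K he he').1 (hs.symm.trans hs')) hne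
      · rw [(DIC_cc hIDM hREP hS K he' hη).2 hs', mul_zero]
    · rw [(DIC_cc hIDM hREP hS K he hη).2 hs, zero_mul]
  · -- sum of all idempotents
    set F : Finset (G → ℂ) := h1.toFinset with hF
    have hmem : ∀ e, e ∈ F ↔ e ∈ BB M K := fun e => h1.mem_toFinset
    set z : G → ℂ := ∑ e ∈ F, e with hz
    have hCFz : CF K z := by
      constructor
      · intro h hh x
        rw [hz, Finset.sum_apply, Finset.sum_apply]
        exact Finset.sum_congr rfl fun e he => (h4 e ((hmem e).1 he)).1.1 h hh x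
      · intro x hx
        rw [hz, Finset.sum_apply]
        exact Finset.sum_eq_zero fun e he => (h4 e ((hmem e).1 he)).1.2 x hx
    have hCFd : CF K (z - GR.dl) := (c8 K z GR.dl hCFz (c10 K)).2.2
    have hzero : z - GR.dl = 0 := by
      refine hEXP G K _ hCFd fun η hη => ?_
      obtain ⟨m1, _, _⟩ := hCCI G K η hη
      have hsub := (m1 0 z GR.dl).2.1
      have hdl := (m1 0 z GR.dl).2.2.2
      let φ : (G → ℂ) →+ ℂ := AddMonoidHom.mk' (cc η) fun a b => (m1 0 a b).1
      have hφ : ∀ a, φ a = cc η a := fun a => rfl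
      have hs : cc η z = ∑ e ∈ F, cc η e := by
        rw [← hφ, hz, map_sum]
        exact Finset.sum_congr rfl fun e _ => hφ e
      set e0 : G → ℂ := eS K (Bl M K η) with he0
      have he0B : e0 ∈ BB M K := ⟨η, hη, rfl⟩
      have hη0 : SB M K η (rep M K e0) := by
        obtain ⟨hr, hre⟩ := h2 e0 he0B
        exact (h3 η hη _ hr).1 (he0.symm.trans hre.symm)
      have hsum : ∑ e ∈ F, cc η e = 1 := by
        rw [Finset.sum_eq_single e0]
        · exact (DIC_cc hIDM hREP hS K he0B hη).1 hη0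
        · intro e he hne
          have heB := (hmem e).1 he
          refine (DIC_cc hIDM hREP hS K heB hη).2 fun hs' => hne ?_
          exact (DIC_eq hREP hS K heB he0B).1 (hs'.symm.trans hη0)
        · intro hn
          exact absurd ((hmem e0).2 he0B) hn
      rw [hsub, hdl, hs, hsum, sub_self]
    intro x
    have h5 : ∑ᶠ e ∈ BB M K, e x = ∑ e ∈ F, e x := by
      rw [finsum_mem_eq_finite_toFinset_sum _ h1]
    rw [h5, ← Finset.sum_apply, ← hz, sub_eq_zero.1 hzero]
  · intro e he z hz hi hzz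
    obtain ⟨hr, _⟩ := h2 e he
    obtain ⟨m1, m2, m3⟩ := hCCI G K (rep M K e) hr
    have hCFd : CF K (cv z z - z) := (c8 K _ _ (c8 K z z hz hz).1 hz).2.2
    have hcc : InM M (cc (rep M K e) z * (cc (rep M K e) z - 1)) := by
      have h := (m3 p M hS (cv z z - z) hCFd.1).2 fun x => hzz x
      rw [(m1 0 (cv z z) z).2.1, m2 z z hz hz] at h
      have e1 : cc (rep M K e) z * (cc (rep M K e) z - 1) =
          cc (rep M K e) z * cc (rep M K e) z - cc (rep M K e) z := by ring
      rw [e1]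
      exact h
    have hci : IntAt M (cc (rep M K e) z) := (m3 p M hS z hz.1).1 hi
    rcases InM.or hS hci (hci.sub hS (IntAt.one hS)) hcc with h | h
    · exact Or.inl ⟨DIC_one hNIL hCVF hCCI hIDM hREP hS K he hz hi hzz h, h⟩
    · refine Or.inr ⟨?_, h⟩
      -- apply the first case to `GR.dl - z`
      have hdlI : ∀ x, IntAt M ((GR.dl : G → ℂ) x) := by
        intro x
        unfold GR.dl
        split_ifs
        · exact IntAt.one hS
        · exact IntAt.zero hS
      have hCF' : CF K (GR.dl - z) := (c8 K GR.dl z (c10 K) hz).2.2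
      have hi' : ∀ x, IntAt M (((GR.dl : G → ℂ) - z) x) := fun x => (hdlI x).sub hS (hi x)
      have hzz' : ∀ x, InM M (cv ((GR.dl : G → ℂ) - z) (GR.dl - z) x - ((GR.dl : G → ℂ) - z) x) := by
        intro x
        have e1 : cv (GR.dl - z) (GR.dl - z) - (GR.dl - z) = cv z z - z := by
          rw [(c2 GR.dl z (GR.dl - z)).2.2.1, (c4 (GR.dl - z)).1, (c2 z GR.dl z).2.2.2, (c4 z).2]
          abel
        have := congrFun e1 x
        simp only [Pi.sub_apply] at this ⊢
        rw [this]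
        exact hzz x
      have hc' : InM M (cc (rep M K e) (GR.dl - z)) := by
        rw [(m1 0 GR.dl z).2.1, (m1 0 GR.dl z).2.2.2]
        have := h.neg
        rwa [neg_sub] at this
      have h' := DIC_one hNIL hCVF hCCI hIDM hREP hS K he hCF' hi' hzz' hc'
      intro x
      have h'' := (h' x).neg
      rw [(c2 GR.dl z e).2.2.1, (c4 e).1] at h''
      have e2 : -((e - cv z e) x) = cv z e x - e x := by
        simp only [Pi.sub_apply]
        ring
      rw [e2] at h''
      exact h''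

end Pool.Agent.GB
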